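import Pool.Agent.L7h46.SY.Stk2

/-!
# Project SY, part STK (helper46).
-/

namespace Pool.Agent.L7h46.SY

open Pool.Agent.L7h98.SY
open scoped InnerProductSpace Topology
open Module Classical Filter

lemma cen_one (hb : S_BAS) {V H : Finset E3} (p : Pair V H) {h : E3} (hh : h ∈ H) :
    ⟪h, cen V h⟫_ℝ = 1 := by
  have h3 := (hb V H p).2.1 h hh
  exact avg_one (Finset.card_pos.mp (by omega)) fun v hv => (mem_T.mp hv).2

lemma cen_lt (hb : S_BAS) {V H : Finset E3} (p : Pair V H) {h : E3} (hh : h ∈ H) {h' : E3}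
    (hh' : h' ∈ H) (hne : h' ≠ h) : ⟪h', cen V h⟫_ℝ < 1 := by
  apply avg_lt
  · intro v hv
    exact p.le v (mem_T.mp hv).1 h' hh'
  · by_contra hcon
    push Not at hcon
    exact hne ((hb V H p).2.2.2.2.1 h hh h' fun v hv =>
      le_antisymm (p.le v (mem_T.mp hv).1 h' hh') (hcon v hv))

theorem s_STK (hb : S_BAS) : S_STK := by
  intro V H F p hF h3
  -- the dual bases
  have hdex : ∀ h : E3, ∃ d : E3 → E3, h ∈ F → ((∀ x ∈ T V h, ⟪d x, x⟫_ℝ = 1) ∧
      (∀ x ∈ T V h, ∀ y ∈ T V h, y ≠ x → ⟪d x, y⟫_ℝ = 0) ∧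
      ∀ z : E3, ∑ x ∈ T V h, ⟪d x, z⟫_ℝ • x = z) := by
    intro h
    by_cases hh : h ∈ F
    · obtain ⟨d, hd⟩ := dual hb p (hF hh) (h3 h hh)
      exact ⟨d, fun _ => hd⟩
    · exact ⟨fun _ => 0, fun h' => absurd h' hh⟩
  choose d hd using hdex
  -- the exposing functionals
  have hyex : ∀ v : E3, ∃ y : E3, v ∈ V → (⟪y, v⟫_ℝ = 1 ∧ ∀ v' ∈ V, v' ≠ v → ⟪y, v'⟫_ℝ < 1) := by
    intro v
    by_cases hv : v ∈ V
    · obtain ⟨y, hy⟩ := p.expV v hv
      exact ⟨y, fun _ => hy⟩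
    · exact ⟨0, fun h' => absurd h' hv⟩
  choose y hy using hyex
  -- values at the centre
  have hdc : ∀ h ∈ F, ∀ x ∈ T V h, 0 < ⟪d h x, cen V h⟫_ℝ := by
    intro h hh x hx
    have h1 : 0 < ((T V h).card : ℝ) := by rw [h3 h hh]; norm_num
    rw [cen, inner_smul_right, inner_sum, ← Finset.add_sum_erase _ _ hx, (hd h hh).1 x hx,
      Finset.sum_eq_zero, add_zero, mul_one]
    · exact inv_pos.mpr h1
    · intro a ha
      rw [Finset.mem_erase] at ha
      exact (hd h hh).2.1 x hx a ha.2 ha.1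
  have hyc : ∀ v ∈ V, ∀ h ∈ F, ⟪y v, cen V h⟫_ℝ < 1 := by
    intro v hv h hh
    apply avg_lt
    · intro v' hv'
      by_cases e : v' = v
      · rw [e, (hy v hv).1]
      · exact ((hy v hv).2 v' (mem_T.mp hv').1 e).le
    · obtain ⟨v', hv', hne⟩ : ∃ v' ∈ T V h, v' ≠ v := by
        apply Finset.exists_mem_ne
        rw [h3 h hh]; norm_num
      exact ⟨v', hv', (hy v hv).2 v' (mem_T.mp hv').1 hne⟩
  -- openness
  let c0 : F → E3 := fun h => cen V h
  have hkap : ∀ h : F, ∀ x ∈ T V (h : E3),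
      Tendsto (fun u : F → E3 => kap h (d h x) (u h)) (𝓝 c0) (𝓝 (h : E3)) := by
    intro h x hx
    have hh := h.2
    have h1 : Tendsto (fun u : F → E3 => u h) (𝓝 c0) (𝓝 (cen V h)) :=
      (continuous_apply h).tendsto c0
    have h2 : Tendsto (fun u : F → E3 => ⟪(h : E3), u h⟫_ℝ) (𝓝 c0) (𝓝 1) := by
      have := (tendsto_const_nhds (x := (h : E3)) (f := 𝓝 c0)).inner (𝕜 := ℝ) h1
      rwa [cen_one hb p (hF hh)] at this
    have h3' : Tendsto (fun u : F → E3 => ⟪d h x, u h⟫_ℝ) (𝓝 c0) (𝓝 ⟪d h x, cen V h⟫_ℝ) :=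
      (tendsto_const_nhds (x := d h x) (f := 𝓝 c0)).inner (𝕜 := ℝ) h1
    have h4 := ((h2.sub_const 1).div h3' (hdc h hh x hx).ne').smul
      (tendsto_const_nhds (x := d h x) (f := 𝓝 c0))
    have h5 := (tendsto_const_nhds (x := (h : E3)) (f := 𝓝 c0)).sub h4
    simp only [sub_self, zero_div, zero_smul, sub_zero] at h5
    exact h5
  have hap : ∀ (h : F) (z : E3), Tendsto (fun u : F → E3 => ⟪z, u h⟫_ℝ) (𝓝 c0)
      (𝓝 ⟪z, cen V h⟫_ℝ) := fun h z =>
    (tendsto_const_nhds (x := z) (f := 𝓝 c0)).inner (𝕜 := ℝ) ((continuous_apply h).tendsto c0)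
  have E1 : ∀ᶠ u : F → E3 in 𝓝 c0, ∀ h : F, ∀ x ∈ T V (h : E3), 0 < ⟪d h x, u h⟫_ℝ := by
    rw [eventually_all]
    intro h
    rw [Filter.eventually_all_finset]
    intro x hx
    exact (hap h _).eventually_const_lt (hdc h h.2 x hx)
  have E3' : ∀ᶠ u : F → E3 in 𝓝 c0, ∀ h : F, ∀ h' ∈ H, h' ≠ (h : E3) → ⟪h', u h⟫_ℝ < 1 := by
    rw [eventually_all]
    intro h
    rw [Filter.eventually_all_finset]
    intro h' hh'
    by_cases e : h' = (h : E3)
    · exact Eventually.of_forall fun u hne => absurd e hne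
    · exact ((hap h _).eventually_lt_const (cen_lt hb p (hF h.2) hh' e)).mono fun u hu _ => hu
  have E4 : ∀ᶠ u : F → E3 in 𝓝 c0, ∀ h : F, ∀ x ∈ T V (h : E3), ∀ v ∈ V, v ∉ T V (h : E3) →
      ⟪kap h (d h x) (u h), v⟫_ℝ < 1 := by
    rw [eventually_all]
    intro h
    rw [Filter.eventually_all_finset]
    intro x hx
    rw [Filter.eventually_all_finset]
    intro v hv
    by_cases e : v ∈ T V (h : E3)
    · exact Eventually.of_forall fun u hne => absurd e hne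
    · have h1 : ⟪(h : E3), v⟫_ℝ < 1 := lt_of_le_of_ne (p.le v hv h (hF h.2)) fun e' =>
        e (mem_T.mpr ⟨hv, e'⟩)
      have h2 := (hkap h x hx).inner (𝕜 := ℝ) (tendsto_const_nhds (x := v) (f := 𝓝 c0))
      exact (h2.eventually_lt_const h1).mono fun u hu _ => hu
  have E5 : ∀ᶠ u : F → E3 in 𝓝 c0, ∀ h : F, ∀ x ∈ T V (h : E3), ∀ h' : F, h' ≠ h →
      ⟪kap h (d h x) (u h), u h'⟫_ℝ < 1 := by
    rw [eventually_all]
    intro h
    rw [Filter.eventually_all_finset]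
    intro x hx
    rw [eventually_all]
    intro h'
    by_cases e : h' = h
    · exact Eventually.of_forall fun u hne => absurd e hne
    · have h1 : ⟪(h : E3), cen V h'⟫_ℝ < 1 := cen_lt hb p (hF h'.2) (hF h.2)
        fun e' => e (Subtype.ext e'.symm)
      have h2 := (hkap h x hx).inner (𝕜 := ℝ) ((continuous_apply h').tendsto c0)
      exact (h2.eventually_lt_const h1).mono fun u hu _ => hu
  have E6 : ∀ᶠ u : F → E3 in 𝓝 c0, ∀ v ∈ V, ∀ h : F, ⟪y v, u h⟫_ℝ < 1 := by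
    rw [Filter.eventually_all_finset]
    intro v hv
    rw [eventually_all]
    intro h
    exact (hap h _).eventually_lt_const (hyc v hv h h.2)
  obtain ⟨δ, hδ, hE⟩ := Metric.eventually_nhds_iff.mp (E1.and (E3'.and (E4.and (E5.and E6))))
  -- the constants
  set A : ℝ := ∑ h ∈ F, ‖cen V h‖ with hA
  have hA0 : 0 ≤ A := Finset.sum_nonneg fun _ _ => norm_nonneg _
  have hAle : ∀ h ∈ F, ‖cen V h‖ ≤ A := fun h hh =>
    Finset.single_le_sum (f := fun h => ‖cen V h‖) (fun _ _ => norm_nonneg _) hh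
  set B : ℝ := ∑ h ∈ F, ‖h‖ with hB
  have hB0 : 0 ≤ B := Finset.sum_nonneg fun _ _ => norm_nonneg _
  have hBle : ∀ h ∈ F, ‖h‖ ≤ B := fun h hh =>
    Finset.single_le_sum (f := fun h => ‖h‖) (fun _ _ => norm_nonneg _) hh
  refine ⟨δ / 2 / (A + 1), by positivity, ?_⟩
  intro ε hε0 hε
  refine ⟨min (δ / 2) (ε / (B + 1)), by positivity, ?_⟩
  intro w hw
  refine ⟨kk d w, core hb ?_⟩
  have hnear : dist (fun h : F => w h) c0 < δ := by
    rw [dist_pi_lt_iff hδ]
    intro h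
    have h1 := lt_of_lt_of_le (hw h h.2) (min_le_left _ _)
    have h2 : ε * (A + 1) < δ / 2 := by
      rwa [lt_div_iff₀ (by positivity)] at hε
    rw [dist_eq_norm]
    have h4 : w h - c0 h = (w h - (1 + ε) • cen V h) + ε • cen V h := by
      simp only [c0, add_smul, one_smul]; abel
    rw [h4]
    have h5 : ‖ε • cen V (h : E3)‖ ≤ ε * (A + 1) := by
      rw [norm_smul, Real.norm_of_nonneg hε0.le]
      have := hAle h h.2
      exact mul_le_mul_of_nonneg_left (by linarith) hε0.le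
    calc _ ≤ ‖w h - (1 + ε) • cen V h‖ + ‖ε • cen V (h : E3)‖ := norm_add_le _ _
      _ < δ := by linarith
  obtain ⟨e1, e3, e4, e5, e6⟩ := hE hnear
  exact
    { p := p
      hF := hF
      h3 := h3
      hd1 := fun h hh => (hd h hh).1
      hd0 := fun h hh => (hd h hh).2.1
      hdz := fun h hh => (hd h hh).2.2
      C1 := fun h hh x hx => e1 ⟨h, hh⟩ x hx
      C2 := by
        intro h hh
        have h1 := lt_of_lt_of_le (hw h hh) (min_le_right _ _)
        rw [lt_div_iff₀ (by positivity)] at h1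
        have h2 : ⟪h, w h⟫_ℝ = (1 + ε) + ⟪h, w h - (1 + ε) • cen V h⟫_ℝ := by
          rw [inner_sub_right, inner_smul_right, cen_one hb p (hF hh)]; ring
        have h4 := abs_real_inner_le_norm h (w h - (1 + ε) • cen V h)
        have h5 : ‖h‖ * ‖w h - (1 + ε) • cen V h‖ ≤ B * ‖w h - (1 + ε) • cen V h‖ :=
          mul_le_mul_of_nonneg_right (hBle h hh) (norm_nonneg _)
        have h6 := neg_abs_le ⟪h, w h - (1 + ε) • cen V h⟫_ℝ
        have h7 := norm_nonneg (w h - (1 + ε) • cen V h)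
        rw [h2]
        nlinarith
      C3 := fun h hh h' hh' hne => e3 ⟨h, hh⟩ h' hh' hne
      C4 := fun h hh x hx v hv hvT => e4 ⟨h, hh⟩ x hx v hv hvT
      C5 := fun h hh x hx h' hh' hne => e5 ⟨h, hh⟩ x hx ⟨h', hh'⟩
        (fun e => hne (congrArg Subtype.val e))
      C6 := fun v hv => ⟨y v, (hy v hv).1, (hy v hv).2, fun h hh => e6 v hv ⟨h, hh⟩⟩ }

end Pool.Agent.L7h46.SY
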