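import Pool.Agent.L7h98.SY.Stm

/-!
# Project SY, part STK (helper46): preliminary lemmas.
-/

namespace Pool.Agent.L7h46.SY

open Pool.Agent.L7h98.SY
open scoped InnerProductSpace Topology
open Module Classical

lemma mem_T {A : Finset E3} {y x : E3} : x ∈ T A y ↔ x ∈ A ∧ ⟪y, x⟫_ℝ = 1 := by
  simp [T]

/-- average lemma -/
lemma avg_lt {S : Finset E3} {y : E3} (h1 : ∀ v ∈ S, ⟪y, v⟫_ℝ ≤ 1)
    (h2 : ∃ v ∈ S, ⟪y, v⟫_ℝ < 1) :
    ⟪y, ((S.card : ℝ)⁻¹ • ∑ x ∈ S, x)⟫_ℝ < 1 := by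
  have hc : 0 < (S.card : ℝ) := by
    obtain ⟨v, hv, _⟩ := h2
    exact_mod_cast Finset.card_pos.mpr ⟨v, hv⟩
  rw [inner_smul_right, inner_sum, inv_mul_lt_iff₀ hc, mul_one]
  calc ∑ x ∈ S, ⟪y, x⟫_ℝ < ∑ x ∈ S, (1 : ℝ) := Finset.sum_lt_sum h1 h2
    _ = _ := by simp

lemma avg_one {S : Finset E3} {y : E3} (hS : S.Nonempty) (h1 : ∀ v ∈ S, ⟪y, v⟫_ℝ = 1) :
    ⟪y, ((S.card : ℝ)⁻¹ • ∑ x ∈ S, x)⟫_ℝ = 1 := by
  have hc : 0 < (S.card : ℝ) := by exact_mod_cast Finset.card_pos.mpr hS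
  rw [inner_smul_right, inner_sum, Finset.sum_congr rfl h1]
  simp only [Finset.sum_const, nsmul_eq_mul, mul_one]
  exact inv_mul_cancel₀ hc.ne'

lemma dual (hb : S_BAS) {V H : Finset E3} (p : Pair V H) {h : E3} (hh : h ∈ H)
    (h3 : (T V h).card = 3) : ∃ d : E3 → E3, (∀ x ∈ T V h, ⟪d x, x⟫_ℝ = 1) ∧
      (∀ x ∈ T V h, ∀ y ∈ T V h, y ≠ x → ⟪d x, y⟫_ℝ = 0) ∧
      ∀ z : E3, ∑ x ∈ T V h, ⟪d x, z⟫_ℝ • x = z := by
  obtain ⟨f, hf, hli⟩ := (hb V H p).2.2.2.2.2 h hh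
  have hinj : Function.Injective f := hli.injective
  have himg : Finset.univ.image f = T V h := by
    apply Finset.eq_of_subset_of_card_le
    · intro x hx
      obtain ⟨i, _, rfl⟩ := Finset.mem_image.mp hx
      exact hf i
    · rw [Finset.card_image_of_injective _ hinj, h3]; simp
  let b : Basis (Fin 3) ℝ E3 := basisOfLinearIndependentOfCardEqFinrank hli (by simp)
  have hbf : ∀ i, b i = f i := fun i => by simp [b]
  let g : E3 → Fin 3 := Function.invFun f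
  have hg : ∀ i, g (f i) = i := Function.leftInverse_invFun hinj
  let d : E3 → E3 := fun x => (InnerProductSpace.toDual ℝ E3).symm
    (LinearMap.toContinuousLinearMap (b.coord (g x)))
  have hd : ∀ x z, ⟪d x, z⟫_ℝ = b.coord (g x) z := by
    intro x z
    simp only [d]
    rw [InnerProductSpace.toDual_symm_apply]
    rfl
  have hdi : ∀ i z, ⟪d (f i), z⟫_ℝ = b.repr z i := by
    intro i z
    rw [hd, hg]; rfl
  refine ⟨d, ?_, ?_, ?_⟩
  · intro x hx
    rw [← himg] at hx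
    obtain ⟨i, _, rfl⟩ := Finset.mem_image.mp hx
    rw [hdi, ← hbf]; simp
  · intro x hx y hy hne
    rw [← himg] at hx hy
    obtain ⟨i, _, rfl⟩ := Finset.mem_image.mp hx
    obtain ⟨j, _, rfl⟩ := Finset.mem_image.mp hy
    have hij : i ≠ j := fun e => hne (by rw [e])
    rw [hdi, ← hbf]
    simp [Finsupp.single_apply, hij.symm]
  · intro z
    rw [← himg, Finset.sum_image (fun i _ j _ e => hinj e)]
    conv_rhs => rw [← b.sum_repr z]
    exact Finset.sum_congr rfl fun i _ => by rw [hdi, hbf]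

/-- if all positive multiples of `x` are in the hull of a finite set, `x = 0` -/
lemma zero_of_ray {A : Finset E3} {x : E3}
    (hx : ∀ t : ℝ, 0 < t → t • x ∈ convexHull ℝ (A : Set E3)) : x = 0 := by
  by_contra hne
  have hpos : 0 < ⟪x, x⟫_ℝ := real_inner_self_pos.mpr hne
  set M : ℝ := ∑ v ∈ A, |⟪x, v⟫_ℝ| with hM
  have hM0 : 0 ≤ M := Finset.sum_nonneg fun _ _ => abs_nonneg _
  have hsub : convexHull ℝ (A : Set E3) ⊆ {z | ⟪x, z⟫_ℝ ≤ M} := by
    apply convexHull_min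
    · intro v hv
      calc ⟪x, v⟫_ℝ ≤ |⟪x, v⟫_ℝ| := le_abs_self _
        _ ≤ M := Finset.single_le_sum (f := fun v => |⟪x, v⟫_ℝ|) (fun _ _ => abs_nonneg _) hv
    · exact convex_halfSpace_le (IsLinearMap.mk (fun a b => inner_add_right _ _ _)
        (fun c a => by rw [inner_smul_right]; rfl)) M
  have h1 := hsub (hx ((M + 1) / ⟪x, x⟫_ℝ) (by positivity))
  simp only [Set.mem_setOf_eq, inner_smul_right] at h1
  rw [div_mul_cancel₀ _ hpos.ne'] at h1
  linarith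

/-- the bipolar argument -/
lemma bip {A B : Finset E3} (h : ∀ x : E3, (∀ b ∈ B, ⟪b, x⟫_ℝ ≤ 1) → x ∈ convexHull ℝ (A : Set E3))
    (y : E3) (hy : ∀ v ∈ A, ⟪y, v⟫_ℝ ≤ 1) : y ∈ convexHull ℝ (B : Set E3) := by
  by_contra hn
  have hcl : IsClosed (convexHull ℝ (B : Set E3)) := (B.finite_toSet).isClosed_convexHull ℝ
  obtain ⟨f, c, hf1, hf2⟩ := geometric_hahn_banach_closed_point (convex_convexHull ℝ _) hcl hn
  set x : E3 := (InnerProductSpace.toDual ℝ E3).symm f with hxdef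
  have hfx : ∀ z, f z = ⟪z, x⟫_ℝ := by
    intro z
    rw [real_inner_comm, hxdef, InnerProductSpace.toDual_symm_apply]
  have hB : B.Nonempty := by
    by_contra hB
    rw [Finset.not_nonempty_iff_eq_empty] at hB
    subst hB
    have hall : ∀ z : E3, z ∈ convexHull ℝ (A : Set E3) := fun z => h z (by simp)
    have hz : ∀ z : E3, z = 0 := fun z => zero_of_ray (fun t _ => hall _)
    have : (EuclideanSpace.single (0 : Fin 3) (1 : ℝ)) = (0 : E3) := hz _
    have h2 := congrArg (fun v : E3 => v 0) this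
    simp at h2
  have hyA : ∀ z ∈ convexHull ℝ (A : Set E3), ⟪y, z⟫_ℝ ≤ 1 := by
    have : convexHull ℝ (A : Set E3) ⊆ {z | ⟪y, z⟫_ℝ ≤ 1} := by
      apply convexHull_min
      · intro v hv; exact hy v hv
      · exact convex_halfSpace_le (IsLinearMap.mk (fun a b => inner_add_right _ _ _)
          (fun c a => by rw [inner_smul_right]; rfl)) 1
    exact fun z hz => this hz
  have hlt : ∀ b ∈ B, ⟪b, x⟫_ℝ < c := fun b hb => by
    rw [← hfx]; exact hf1 b (subset_convexHull ℝ _ hb)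
  have hyc : c < ⟪y, x⟫_ℝ := by rw [← hfx]; exact hf2
  by_cases hc : 0 < c
  · have h1 : c⁻¹ • x ∈ convexHull ℝ (A : Set E3) := by
      apply h
      intro b hb
      rw [inner_smul_right, inv_mul_le_iff₀ hc, mul_one]
      exact (hlt b hb).le
    have h2 := hyA _ h1
    rw [inner_smul_right, inv_mul_le_iff₀ hc, mul_one] at h2
    linarith
  · push Not at hc
    have hx0 : x = 0 := by
      apply zero_of_ray (A := A)
      intro t ht
      apply h
      intro b hb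
      rw [inner_smul_right]
      have := hlt b hb
      nlinarith [mul_pos ht (neg_pos.mpr (lt_of_lt_of_le this hc))]
    obtain ⟨b, hb⟩ := hB
    have := hlt b hb
    rw [hx0, inner_zero_right] at this
    linarith

/-- the new facet -/
noncomputable def kap (h e u : E3) : E3 := h - ((⟪h, u⟫_ℝ - 1) / ⟪e, u⟫_ℝ) • e

lemma kap_inner (h e u z : E3) :
    ⟪kap h e u, z⟫_ℝ = ⟪h, z⟫_ℝ - ((⟪h, u⟫_ℝ - 1) / ⟪e, u⟫_ℝ) * ⟪e, z⟫_ℝ := by
  rw [kap, inner_sub_left, real_inner_smul_left]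

end Pool.Agent.L7h46.SY
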