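import Pool.Agent.L7h46.SY.Stk1

/-!
# Project SY, part STK (helper46): the combinatorial core.
-/

namespace Pool.Agent.L7h46.SY

open Pool.Agent.L7h98.SY
open scoped InnerProductSpace Topology
open Module Classical

/-- the data of the core -/
structure Core (V H F : Finset E3) (d : E3 → E3 → E3) (w : E3 → E3) : Prop where
  p : Pair V H
  hF : F ⊆ H
  h3 : ∀ h ∈ F, (T V h).card = 3
  hd1 : ∀ h ∈ F, ∀ x ∈ T V h, ⟪d h x, x⟫_ℝ = 1
  hd0 : ∀ h ∈ F, ∀ x ∈ T V h, ∀ y ∈ T V h, y ≠ x → ⟪d h x, y⟫_ℝ = 0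
  hdz : ∀ h ∈ F, ∀ z : E3, ∑ x ∈ T V h, ⟪d h x, z⟫_ℝ • x = z
  C1 : ∀ h ∈ F, ∀ x ∈ T V h, 0 < ⟪d h x, w h⟫_ℝ
  C2 : ∀ h ∈ F, 1 < ⟪h, w h⟫_ℝ
  C3 : ∀ h ∈ F, ∀ h' ∈ H, h' ≠ h → ⟪h', w h⟫_ℝ < 1
  C4 : ∀ h ∈ F, ∀ x ∈ T V h, ∀ v ∈ V, v ∉ T V h → ⟪kap h (d h x) (w h), v⟫_ℝ < 1
  C5 : ∀ h ∈ F, ∀ x ∈ T V h, ∀ h' ∈ F, h' ≠ h → ⟪kap h (d h x) (w h), w h'⟫_ℝ < 1
  C6 : ∀ v ∈ V, ∃ y : E3, ⟪y, v⟫_ℝ = 1 ∧ (∀ v' ∈ V, v' ≠ v → ⟪y, v'⟫_ℝ < 1) ∧
    ∀ h ∈ F, ⟪y, w h⟫_ℝ < 1

section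
variable {V H F : Finset E3} {d : E3 → E3 → E3} {w : E3 → E3}

/-- the new facets -/
noncomputable def kk (d : E3 → E3 → E3) (w : E3 → E3) (h x : E3) : E3 := kap h (d h x) (w h)

lemma K1 (c : Core V H F d w) {h : E3} (hh : h ∈ F) {x y : E3} (hx : x ∈ T V h)
    (hy : y ∈ T V h) (hne : y ≠ x) : ⟪kk d w h x, y⟫_ℝ = 1 := by
  rw [kk, kap_inner, c.hd0 h hh x hx y hy hne, mul_zero, sub_zero]
  exact (mem_T.mp hy).2

lemma K2 (c : Core V H F d w) {h : E3} (hh : h ∈ F) {x : E3} (hx : x ∈ T V h) :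
    ⟪kk d w h x, x⟫_ℝ < 1 := by
  rw [kk, kap_inner, c.hd1 h hh x hx, mul_one, (mem_T.mp hx).2]
  have h1 := c.C1 h hh x hx
  have h2 := c.C2 h hh
  have : 0 < (⟪h, w h⟫_ℝ - 1) / ⟪d h x, w h⟫_ℝ := div_pos (by linarith) h1
  linarith

lemma K3 (c : Core V H F d w) {h : E3} (hh : h ∈ F) {x : E3} (hx : x ∈ T V h) :
    ⟪kk d w h x, w h⟫_ℝ = 1 := by
  rw [kk, kap_inner, div_mul_cancel₀ _ (c.C1 h hh x hx).ne']
  ring

lemma mem_newV {v : E3} : v ∈ newV V F w ↔ v ∈ V ∨ ∃ h ∈ F, w h = v := by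
  simp [newV]

lemma mem_newH {k : E3 → E3 → E3} {η : E3} :
    η ∈ newH V H F k ↔ (η ∈ H ∧ η ∉ F) ∨ ∃ h ∈ F, ∃ x ∈ T V h, k h x = η := by
  simp [newH, Finset.mem_biUnion]

lemma wnot (c : Core V H F d w) {h : E3} (hh : h ∈ F) : w h ∉ V := fun hv => by
  have h1 := c.p.le (w h) hv h (c.hF hh)
  have h2 := c.C2 h hh
  linarith

lemma winj (c : Core V H F d w) {h h' : E3} (hh : h ∈ F) (hh' : h' ∈ F) (e : w h = w h') :
    h = h' := by
  by_contra hne
  have h1 := c.C3 h' hh' h (c.hF hh) hne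
  have h2 := c.C2 h hh
  rw [e] at h2
  linarith

lemma knot (c : Core V H F d w) {h : E3} (hh : h ∈ F) {x : E3} (hx : x ∈ T V h) :
    kk d w h x ∉ H := fun hk => by
  have hne : kk d w h x ≠ h := fun e => by
    have h1 := K2 c hh hx
    rw [e, (mem_T.mp hx).2] at h1
    exact lt_irrefl _ h1
  have h1 := c.C3 h hh _ hk hne
  rw [K3 c hh hx] at h1
  exact lt_irrefl _ h1

lemma kle (c : Core V H F d w) : ∀ v ∈ newV V F w, ∀ η ∈ newH V H F (kk d w), ⟪η, v⟫_ℝ ≤ 1 := by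
  intro v hv η hη
  rw [mem_newV] at hv
  rw [mem_newH] at hη
  rcases hη with ⟨hη, hηF⟩ | ⟨h, hh, x, hx, rfl⟩
  · rcases hv with hv | ⟨h, hh, rfl⟩
    · exact c.p.le v hv η hη
    · exact (c.C3 h hh η hη (fun e => hηF (e ▸ hh))).le
  · rcases hv with hv | ⟨h', hh', rfl⟩
    · by_cases hvT : v ∈ T V h
      · by_cases hvx : v = x
        · subst hvx; exact (K2 c hh hx).le
        · exact (K1 c hh hx hvT hvx).le
      · exact (c.C4 h hh x hx v hv hvT).le
    · by_cases e : h' = h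
      · subst e; exact (K3 c hh hx).le
      · exact (c.C5 h hh x hx h' hh' e).le

lemma kT (c : Core V H F d w) {h : E3} (hh : h ∈ F) {x : E3} (hx : x ∈ T V h) :
    T (newV V F w) (kk d w h x) = insert (w h) ((T V h).erase x) := by
  ext v
  rw [mem_T, mem_newV, Finset.mem_insert, Finset.mem_erase]
  constructor
  · rintro ⟨hv | ⟨h', hh', rfl⟩, h1⟩
    · by_cases hvT : v ∈ T V h
      · by_cases hvx : v = x
        · subst hvx
          have := K2 c hh hx
          linarith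
        · exact Or.inr ⟨hvx, hvT⟩
      · have := c.C4 h hh x hx v hv hvT
        change ⟪kk d w h x, v⟫_ℝ < 1 at this
        linarith
    · by_cases e : h' = h
      · subst e; exact Or.inl rfl
      · have := c.C5 h hh x hx h' hh' e
        change ⟪kk d w h x, w h'⟫_ℝ < 1 at this
        linarith
  · rintro (rfl | ⟨hvx, hvT⟩)
    · exact ⟨Or.inr ⟨h, hh, rfl⟩, K3 c hh hx⟩
    · exact ⟨Or.inl (mem_T.mp hvT).1, K1 c hh hx hvT hvx⟩

lemma old (c : Core V H F d w) {h : E3} (hh : h ∈ H) (hhF : h ∉ F) :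
    T (newV V F w) h = T V h := by
  ext v
  rw [mem_T, mem_newV, mem_T]
  constructor
  · rintro ⟨hv | ⟨h', hh', rfl⟩, h1⟩
    · exact ⟨hv, h1⟩
    · have := c.C3 h' hh' h hh (fun e => hhF (e ▸ hh'))
      linarith
  · rintro ⟨hv, h1⟩
    exact ⟨Or.inl hv, h1⟩

lemma kinj (c : Core V H F d w) {h : E3} (hh : h ∈ F) {x y : E3} (hx : x ∈ T V h)
    (hy : y ∈ T V h) (e : kk d w h x = kk d w h y) : x = y := by
  by_contra hne
  have h1 := K2 c hh hx
  rw [e, K1 c hh hy hx hne] at h1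
  exact lt_irrefl _ h1

lemma kdisj (c : Core V H F d w) {h h' : E3} (hh : h ∈ F) (hh' : h' ∈ F) {x y : E3}
    (hx : x ∈ T V h) (hy : y ∈ T V h') (e : kk d w h x = kk d w h' y) : h = h' := by
  by_contra hne
  have h1 := c.C5 h' hh' y hy h hh hne
  change ⟪kk d w h' y, w h⟫_ℝ < 1 at h1
  rw [← e, K3 c hh hx] at h1
  exact lt_irrefl _ h1

lemma wT (c : Core V H F d w) {h : E3} (hh : h ∈ F) :
    T (newH V H F (kk d w)) (w h) = (T V h).image (kk d w h) := by
  ext η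
  rw [mem_T, mem_newH, Finset.mem_image, real_inner_comm]
  constructor
  · rintro ⟨⟨hη, hηF⟩ | ⟨h', hh', x, hx, rfl⟩, h1⟩
    · have := c.C3 h hh η hη (fun e => hηF (e ▸ hh))
      linarith
    · by_cases e : h = h'
      · subst e; exact ⟨x, hx, rfl⟩
      · have := c.C5 h' hh' x hx h hh e
        change ⟪kk d w h' x, w h⟫_ℝ < 1 at this
        linarith
  · rintro ⟨x, hx, rfl⟩
    exact ⟨Or.inr ⟨h, hh, x, hx, rfl⟩, K3 c hh hx⟩

lemma wT3 (c : Core V H F d w) {h : E3} (hh : h ∈ F) :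
    (T (newH V H F (kk d w)) (w h)).card = 3 := by
  rw [wT c hh, Finset.card_image_of_injOn, c.h3 h hh]
  intro x hx y hy e
  exact kinj c hh hx hy e

lemma cardV (c : Core V H F d w) : (newV V F w).card = V.card + F.card := by
  rw [newV, Finset.card_union_of_disjoint, Finset.card_image_of_injOn]
  · intro h hh h' hh' e
    exact winj c hh hh' e
  · rw [Finset.disjoint_left]
    intro v hv hv'
    obtain ⟨h, hh, rfl⟩ := Finset.mem_image.mp hv'
    exact wnot c hh hv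

lemma cardH (c : Core V H F d w) : (newH V H F (kk d w)).card = H.card + 2 * F.card := by
  rw [newH, Finset.card_union_of_disjoint, Finset.card_biUnion]
  · have h1 : ∀ h ∈ F, ((T V h).image (kk d w h)).card = 3 := by
      intro h hh
      rw [Finset.card_image_of_injOn, c.h3 h hh]
      intro x hx y hy e
      exact kinj c hh hx hy e
    rw [Finset.sum_congr rfl h1, Finset.card_sdiff_of_subset c.hF]
    have := Finset.card_le_card c.hF
    simp only [Finset.sum_const, smul_eq_mul]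
    omega
  · intro h hh h' hh' hne
    rw [Function.onFun, Finset.disjoint_left]
    intro η hη hη'
    obtain ⟨x, hx, rfl⟩ := Finset.mem_image.mp hη
    obtain ⟨y, hy, e⟩ := Finset.mem_image.mp hη'
    exact hne (kdisj c hh' hh hy hx e).symm
  · rw [Finset.disjoint_left]
    intro η hη hη'
    obtain ⟨h, hh, hη'⟩ := Finset.mem_biUnion.mp hη'
    obtain ⟨x, hx, rfl⟩ := Finset.mem_image.mp hη'
    exact knot c hh hx (Finset.mem_sdiff.mp hη).1

lemma sum_d (c : Core V H F d w) {h : E3} (hh : h ∈ F) (z : E3) :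
    ∑ x ∈ T V h, ⟪d h x, z⟫_ℝ = ⟪h, z⟫_ℝ := by
  conv_rhs => rw [← c.hdz h hh z]
  rw [inner_sum]
  apply Finset.sum_congr rfl
  intro x hx
  rw [inner_smul_right, (mem_T.mp hx).2, mul_one]

lemma hullV (c : Core V H F d w) (x : E3) (hx : ∀ η ∈ newH V H F (kk d w), ⟪η, x⟫_ℝ ≤ 1) :
    x ∈ convexHull ℝ ((newV V F w : Finset E3) : Set E3) := by
  have hsub : (V : Set E3) ⊆ (newV V F w : Finset E3) := fun v hv =>
    Finset.mem_coe.mpr (mem_newV.mpr (Or.inl hv))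
  by_cases hall : ∀ h ∈ F, ⟪h, x⟫_ℝ ≤ 1
  · apply convexHull_mono hsub
    apply c.p.hullV
    intro h hh
    by_cases hhF : h ∈ F
    · exact hall h hhF
    · exact hx h (mem_newH.mpr (Or.inl ⟨hh, hhF⟩))
  · push Not at hall
    obtain ⟨h, hh, h1⟩ := hall
    set s := ⟪h, w h⟫_ℝ with hs
    have hs1 : 1 < s := c.C2 h hh
    set θ := (⟪h, x⟫_ℝ - 1) / (s - 1) with hθ
    have hθ0 : 0 < θ := div_pos (by linarith) (by linarith)
    have hθs : θ * (s - 1) = ⟪h, x⟫_ℝ - 1 := div_mul_cancel₀ _ (by linarith)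
    have hcoef : ∀ a ∈ T V h, 0 ≤ ⟪d h a, x⟫_ℝ - θ * ⟪d h a, w h⟫_ℝ := by
      intro a ha
      have h2 := hx (kk d w h a) (mem_newH.mpr (Or.inr ⟨h, hh, a, ha, rfl⟩))
      rw [kk, kap_inner] at h2
      have h3 := c.C1 h hh a ha
      have h4 : ⟪h, x⟫_ℝ - 1 ≤ (s - 1) * (⟪d h a, x⟫_ℝ / ⟪d h a, w h⟫_ℝ) := by
        have e : (⟪h, w h⟫_ℝ - 1) / ⟪d h a, w h⟫_ℝ * ⟪d h a, x⟫_ℝ
            = (s - 1) * (⟪d h a, x⟫_ℝ / ⟪d h a, w h⟫_ℝ) := by rw [← hs]; ring
        rw [e] at h2; linarith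
      rw [← hθs, mul_comm θ] at h4
      have h5 : θ ≤ ⟪d h a, x⟫_ℝ / ⟪d h a, w h⟫_ℝ := le_of_mul_le_mul_left h4 (by linarith)
      rw [le_div_iff₀ h3] at h5
      linarith
    have hwT : w h ∉ T V h := fun hm => wnot c hh (mem_T.mp hm).1
    let cf : E3 → ℝ := fun a => if a = w h then θ else ⟪d h a, x⟫_ℝ - θ * ⟪d h a, w h⟫_ℝ
    have hcf : ∀ a ∈ T V h, cf a = ⟪d h a, x⟫_ℝ - θ * ⟪d h a, w h⟫_ℝ := by
      intro a ha
      have : a ≠ w h := fun e => hwT (e ▸ ha)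
      simp [cf, this]
    have hcfw : cf (w h) = θ := by simp [cf]
    have hsum : ∑ a ∈ insert (w h) (T V h), cf a = 1 := by
      rw [Finset.sum_insert hwT, hcfw, Finset.sum_congr rfl hcf, Finset.sum_sub_distrib,
        ← Finset.mul_sum, sum_d c hh, sum_d c hh]
      linarith
    have hpt : ∑ a ∈ insert (w h) (T V h), cf a • a = x := by
      rw [Finset.sum_insert hwT, hcfw,
        Finset.sum_congr rfl (fun a ha => by rw [hcf a ha])]
      simp_rw [sub_smul, mul_smul]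
      rw [Finset.sum_sub_distrib, ← Finset.smul_sum, c.hdz h hh, c.hdz h hh]
      abel
    rw [← hpt]
    apply (convex_convexHull ℝ _).sum_mem
    · intro a ha
      rcases Finset.mem_insert.mp ha with rfl | ha
      · rw [hcfw]; exact hθ0.le
      · rw [hcf a ha]; exact hcoef a ha
    · exact hsum
    · intro a ha
      apply subset_convexHull
      rcases Finset.mem_insert.mp ha with rfl | ha
      · exact Finset.mem_coe.mpr (mem_newV.mpr (Or.inr ⟨h, hh, rfl⟩))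
      · exact hsub (mem_T.mp ha).1

lemma expV (c : Core V H F d w) : ∀ v ∈ newV V F w, ∃ y : E3, ⟪y, v⟫_ℝ = 1 ∧
    ∀ v' ∈ newV V F w, v' ≠ v → ⟪y, v'⟫_ℝ < 1 := by
  intro v hv
  rcases mem_newV.mp hv with hv | ⟨h, hh, rfl⟩
  · obtain ⟨y, h1, h2, h3⟩ := c.C6 v hv
    refine ⟨y, h1, ?_⟩
    intro v' hv' hne
    rcases mem_newV.mp hv' with hv' | ⟨h, hh, rfl⟩
    · exact h2 v' hv' hne
    · exact h3 h hh
  · have hne : ((T V h).image (kk d w h)).Nonempty := by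
      have := c.h3 h hh
      exact (Finset.card_pos.mp (by omega)).image _
    refine ⟨((((T V h).image (kk d w h)).card : ℝ)⁻¹ • ∑ x ∈ (T V h).image (kk d w h), x),
      ?_, ?_⟩
    · rw [real_inner_comm]
      apply avg_one hne
      intro η hη
      obtain ⟨x, hx, rfl⟩ := Finset.mem_image.mp hη
      rw [real_inner_comm]
      exact K3 c hh hx
    · intro v' hv' hne'
      rw [real_inner_comm]
      apply avg_lt
      · intro η hη
        obtain ⟨x, hx, rfl⟩ := Finset.mem_image.mp hη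
        rw [real_inner_comm]
        exact kle c v' hv' _ (mem_newH.mpr (Or.inr ⟨h, hh, x, hx, rfl⟩))
      · rcases mem_newV.mp hv' with hv'' | ⟨h', hh', rfl⟩
        · by_cases hT : v' ∈ T V h
          · refine ⟨kk d w h v', Finset.mem_image_of_mem _ hT, ?_⟩
            rw [real_inner_comm]
            exact K2 c hh hT
          · obtain ⟨η, hη⟩ := hne
            obtain ⟨x, hx, rfl⟩ := Finset.mem_image.mp hη
            refine ⟨_, hη, ?_⟩
            rw [real_inner_comm]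
            exact c.C4 h hh x hx v' hv'' hT
        · obtain ⟨η, hη⟩ := hne
          obtain ⟨x, hx, rfl⟩ := Finset.mem_image.mp hη
          refine ⟨_, hη, ?_⟩
          rw [real_inner_comm]
          exact c.C5 h hh x hx h' hh' (fun e => hne' (by rw [e]))

/-- a functional equal to one on the vertices of a new facet is the new facet -/
lemma kuniq (c : Core V H F d w) {h : E3} (hh : h ∈ F) {x : E3} (hx : x ∈ T V h) {η : E3}
    (hη : ∀ v ∈ insert (w h) ((T V h).erase x), ⟪η, v⟫_ℝ = 1) : η = kk d w h x := by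
  have hz : ∀ v ∈ insert (w h) ((T V h).erase x), ⟪η - kk d w h x, v⟫_ℝ = 0 := by
    intro v hv
    rw [inner_sub_left, hη v hv]
    rw [← kT c hh hx] at hv
    rw [(mem_T.mp hv).2, sub_self]
  have h1 := hz (w h) (Finset.mem_insert_self _ _)
  have h2 : ∀ v ∈ T V h, v ≠ x → ⟪η - kk d w h x, v⟫_ℝ = 0 := fun v hv hne =>
    hz v (Finset.mem_insert_of_mem (Finset.mem_erase.mpr ⟨hne, hv⟩))
  have h3 : ⟪η - kk d w h x, x⟫_ℝ = 0 := by
    rw [← c.hdz h hh (w h), inner_sum, ← Finset.add_sum_erase _ _ hx] at h1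
    have e : ∑ a ∈ (T V h).erase x, ⟪η - kk d w h x, ⟪d h a, w h⟫_ℝ • a⟫_ℝ = 0 := by
      apply Finset.sum_eq_zero
      intro a ha
      rw [Finset.mem_erase] at ha
      rw [inner_smul_right, h2 a ha.2 ha.1, mul_zero]
    rw [e, add_zero, inner_smul_right] at h1
    rcases mul_eq_zero.mp h1 with h0 | h0
    · exact absurd h0 (c.C1 h hh x hx).ne'
    · exact h0
  have h4 : ∀ v ∈ T V h, ⟪η - kk d w h x, v⟫_ℝ = 0 := by
    intro v hv
    by_cases e : v = x
    · rw [e]; exact h3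
    · exact h2 v hv e
  have h5 : ⟪η - kk d w h x, η - kk d w h x⟫_ℝ = 0 := by
    calc ⟪η - kk d w h x, η - kk d w h x⟫_ℝ
        = ⟪η - kk d w h x, ∑ a ∈ T V h, ⟪d h a, η - kk d w h x⟫_ℝ • a⟫_ℝ := by
          rw [c.hdz h hh (η - kk d w h x)]
      _ = 0 := by
          rw [inner_sum]
          apply Finset.sum_eq_zero
          intro a ha
          rw [inner_smul_right, h4 a ha, mul_zero]
  exact sub_eq_zero.mp (inner_self_eq_zero.mp h5)

lemma expH (hb : S_BAS) (c : Core V H F d w) : ∀ η ∈ newH V H F (kk d w), ∃ x : E3,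
    ⟪η, x⟫_ℝ = 1 ∧ ∀ η' ∈ newH V H F (kk d w), η' ≠ η → ⟪η', x⟫_ℝ < 1 := by
  have key : ∀ η ∈ newH V H F (kk d w), (T (newV V F w) η).Nonempty →
      (∀ η' : E3, (∀ v ∈ T (newV V F w) η, ⟪η', v⟫_ℝ = 1) → η' = η) →
      ∃ x : E3, ⟪η, x⟫_ℝ = 1 ∧ ∀ η' ∈ newH V H F (kk d w), η' ≠ η → ⟪η', x⟫_ℝ < 1 := by
    intro η hη hne hu
    refine ⟨(((T (newV V F w) η).card : ℝ)⁻¹ • ∑ x ∈ T (newV V F w) η, x), ?_, ?_⟩
    · exact avg_one hne fun v hv => (mem_T.mp hv).2
    · intro η' hη' hne'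
      apply avg_lt
      · intro v hv
        exact kle c v (mem_T.mp hv).1 η' hη'
      · by_contra hcon
        push Not at hcon
        exact hne' (hu η' fun v hv => le_antisymm (kle c v (mem_T.mp hv).1 η' hη') (hcon v hv))
  intro η hη
  rcases mem_newH.mp hη with ⟨hH, hF⟩ | ⟨h, hh, x, hx, rfl⟩
  · apply key η hη
    · rw [old c hH hF]
      have := (hb V H c.p).2.1 η hH
      exact Finset.card_pos.mp (by omega)
    · rw [old c hH hF]
      exact (hb V H c.p).2.2.2.2.1 η hH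
  · apply key _ hη
    · rw [kT c hh hx]; exact ⟨_, Finset.mem_insert_self _ _⟩
    · rw [kT c hh hx]
      intro η' h'
      exact kuniq c hh hx h'

/-- the core -/
theorem core (hb : S_BAS) (c : Core V H F d w) : Stk V H F w (kk d w) where
  pair :=
    { le := kle c
      hullV := hullV c
      hullH := fun y hy => bip (hullV c) y hy
      expV := expV c
      expH := expH hb c }
  wnot := fun _ hh => wnot c hh
  winj := fun _ hh _ hh' e => winj c hh hh' e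
  wabove := c.C2
  wbelow := c.C3
  knot := fun _ hh _ hx => knot c hh hx
  kT := fun _ hh _ hx => kT c hh hx
  old := fun _ hh hF => old c hh hF
  wT := fun _ hh => wT c hh
  wT3 := fun _ hh => wT3 c hh
  cardV := cardV c
  cardH := cardH c

end

end Pool.Agent.L7h46.SY
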